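import Mathlib

/-!
# The distribution of a weighted sum of cotangents

For a probability measure `∑ m θ δ_θ` on the circle, the function
`C t = ∑ m θ cot ((t - θ) / 2)` on the circle with its uniform measure has the Cauchy distribution.
-/

set_option autoImplicit false

namespace Pool.Agent.Q74.Circ

open Real MeasureTheory Set Filter Topology

/-- the cotangent -/
noncomputable def ct (x : ℝ) : ℝ := Real.cos x / Real.sin x

/-- the weighted sum of cotangents -/
noncomputable def C (S : Finset ℝ) (m : ℝ → ℝ) (t : ℝ) : ℝ := ∑ θ ∈ S, m θ * ct ((t - θ) / 2)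

theorem measurable_ct : Measurable ct := Real.measurable_cos.div Real.measurable_sin

theorem measurable_C (S : Finset ℝ) (m : ℝ → ℝ) : Measurable (C S m) := by
  unfold C
  refine Finset.measurable_sum _ fun θ _ => ?_
  exact (measurable_ct.comp ((measurable_id.sub_const θ).div_const 2)).const_mul _

/-- the unit complex number with argument `t` -/
noncomputable def ei (t : ℝ) : ℂ := Complex.exp (t * Complex.I)

theorem norm_ei (t : ℝ) : ‖ei t‖ = 1 := Complex.norm_exp_ofReal_mul_I t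

theorem ei_half (t θ : ℝ) : ei t = ei θ *
    ((Real.cos ((t - θ) / 2) : ℂ) + (Real.sin ((t - θ) / 2) : ℂ) * Complex.I) ^ 2 := by
  have h1 : ((Real.cos ((t - θ) / 2) : ℂ) + (Real.sin ((t - θ) / 2) : ℂ) * Complex.I) =
      Complex.exp (((t - θ) / 2 : ℝ) * Complex.I) := by
    rw [Complex.exp_mul_I, Complex.ofReal_cos, Complex.ofReal_sin]
  rw [h1, ei, ei, ← Complex.exp_nat_mul, ← Complex.exp_add]
  congr 1
  push_cast
  ring

theorem ei_sub_ne {t θ : ℝ} (h : Real.sin ((t - θ) / 2) ≠ 0) : ei θ - ei t ≠ 0 := by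
  intro h0
  rw [ei_half t θ] at h0
  set s := Real.sin ((t - θ) / 2)
  set c := Real.cos ((t - θ) / 2)
  have h1 : ei θ ≠ 0 := Complex.exp_ne_zero _
  have h2 : s ^ 2 + c ^ 2 = 1 := Real.sin_sq_add_cos_sq _
  have h3 : ((c : ℂ) + (s : ℂ) * Complex.I) ^ 2 = 1 := by
    have : ei θ * (1 - ((c : ℂ) + (s : ℂ) * Complex.I) ^ 2) = 0 := by linear_combination h0
    rcases mul_eq_zero.1 this with h | h
    · exact absurd h h1
    · linear_combination -h
  have h4 := congrArg Complex.re h3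
  simp [pow_two] at h4
  have h5 : s ^ 2 = 0 := by nlinarith
  exact h (pow_eq_zero_iff (two_ne_zero) |>.1 h5)

theorem herg {t θ : ℝ} (h : Real.sin ((t - θ) / 2) ≠ 0) :
    (ei θ + ei t) / (ei θ - ei t) = Complex.I * (ct ((t - θ) / 2) : ℂ) := by
  have h0 := ei_sub_ne h
  rw [div_eq_iff h0, ct]
  rw [ei_half t θ]
  set s := Real.sin ((t - θ) / 2)
  set c := Real.cos ((t - θ) / 2)
  have h2 : (s : ℂ) ^ 2 + (c : ℂ) ^ 2 = 1 := by
    exact_mod_cast Real.sin_sq_add_cos_sq ((t - θ) / 2)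
  have hs : (s : ℂ) ≠ 0 := by exact_mod_cast h
  have hI : Complex.I ^ 2 = -1 := Complex.I_sq
  push_cast
  have h3 : ei θ + ei θ * ((c : ℂ) + (s : ℂ) * Complex.I) ^ 2 = Complex.I * ((c : ℂ) / (s : ℂ)) *
      (ei θ - ei θ * ((c : ℂ) + (s : ℂ) * Complex.I) ^ 2) := by
    rw [← sub_eq_zero, ← mul_right_inj' hs, mul_zero]
    have : (s : ℂ) * (ei θ + ei θ * ((c : ℂ) + (s : ℂ) * Complex.I) ^ 2 -
        Complex.I * ((c : ℂ) / (s : ℂ)) *
        (ei θ - ei θ * ((c : ℂ) + (s : ℂ) * Complex.I) ^ 2)) =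
        (s : ℂ) * (ei θ + ei θ * ((c : ℂ) + (s : ℂ) * Complex.I) ^ 2) -
        Complex.I * (c : ℂ) *
        (ei θ - ei θ * ((c : ℂ) + (s : ℂ) * Complex.I) ^ 2) := by
      field_simp
    rw [this]
    linear_combination (-(s - Complex.I * c) * ei θ) * h2 +
      ((s ^ 3 + 2 * c ^ 2 * s + c * s ^ 2 * Complex.I) * ei θ) * hI
  exact h3

/-- the Herglotz function of the measure `∑ m θ δ_θ` -/
noncomputable def hz (S : Finset ℝ) (m : ℝ → ℝ) (z : ℂ) : ℂ :=
  ∑ θ ∈ S, (m θ : ℂ) * ((ei θ + z) / (ei θ - z))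

theorem hz_ei {S : Finset ℝ} {m : ℝ → ℝ} {t : ℝ} (h : ∀ θ ∈ S, Real.sin ((t - θ) / 2) ≠ 0) :
    hz S m (ei t) = Complex.I * (C S m t : ℂ) := by
  rw [hz, C]
  push_cast
  rw [Finset.mul_sum]
  refine Finset.sum_congr rfl fun θ hθ => ?_
  rw [herg (h θ hθ)]
  ring

theorem ei_sub_ne' {θ : ℝ} {z : ℂ} (hz : ‖z‖ < 1) : ei θ - z ≠ 0 := by
  intro h0
  have : ‖z‖ = 1 := by rw [← sub_eq_zero.1 h0, norm_ei]
  linarith

theorem hz_re {S : Finset ℝ} {m : ℝ → ℝ} (hm : ∀ θ ∈ S, 0 ≤ m θ) {z : ℂ} (h : ‖z‖ < 1) :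
    0 ≤ (hz S m z).re := by
  rw [hz, Complex.re_sum]
  refine Finset.sum_nonneg fun θ hθ => ?_
  rw [Complex.re_ofReal_mul]
  refine mul_nonneg (hm θ hθ) ?_
  rw [Complex.div_re]
  have h1 : 0 < Complex.normSq (ei θ - z) := Complex.normSq_pos.2 (ei_sub_ne' h)
  rw [← add_div]
  refine div_nonneg ?_ h1.le
  have h2 : Complex.normSq (ei θ) = 1 := by rw [Complex.normSq_eq_norm_sq, norm_ei]; norm_num
  have h3 : Complex.normSq z ≤ 1 := by
    rw [Complex.normSq_eq_norm_sq]; nlinarith [norm_nonneg z]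
  rw [Complex.normSq_apply] at h2 h3
  simp only [Complex.add_re, Complex.sub_re, Complex.add_im, Complex.sub_im]
  nlinarith

theorem hz_zero {S : Finset ℝ} {m : ℝ → ℝ} (h1 : ∑ θ ∈ S, m θ = 1) : hz S m 0 = 1 := by
  rw [hz]
  have : ∀ θ ∈ S, (m θ : ℂ) * ((ei θ + 0) / (ei θ - 0)) = (m θ : ℂ) := by
    intro θ _
    rw [add_zero, sub_zero, div_self (show ei θ ≠ 0 from Complex.exp_ne_zero _), mul_one]
  rw [Finset.sum_congr rfl this]
  exact_mod_cast h1

theorem ae_sin_ne (S : Finset ℝ) : ∀ᵐ t : ℝ, ∀ θ ∈ S, Real.sin ((t - θ) / 2) ≠ 0 := by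
  rw [Filter.eventually_all_finset]
  intro θ _
  have h : (Set.range fun n : ℤ => θ + 2 * (n * π)).Countable := Set.countable_range _
  filter_upwards [h.ae_notMem volume] with t ht h0
  obtain ⟨n, hn⟩ := Real.sin_eq_zero_iff.1 h0
  exact ht ⟨n, by simp only; linarith⟩

theorem tendsto_hz {S : Finset ℝ} {m : ℝ → ℝ} {t : ℝ}
    (h : ∀ θ ∈ S, Real.sin ((t - θ) / 2) ≠ 0) :
    Tendsto (fun r : ℝ => hz S m (circleMap 0 r t)) (𝓝[<] 1) (𝓝 (Complex.I * (C S m t : ℂ))) := by
  rw [← hz_ei h]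
  have h1 : ContinuousAt (fun r : ℝ => hz S m (circleMap 0 r t)) 1 := by
    unfold hz
    refine tendsto_finsetSum _ fun θ hθ => ?_
    have h2 : ContinuousAt (fun r : ℝ => circleMap 0 r t) 1 := by
      unfold circleMap
      fun_prop
    have h3 : ei θ - circleMap 0 1 t ≠ 0 := by
      have := ei_sub_ne (h θ hθ)
      simpa [circleMap, ei] using this
    exact tendsto_const_nhds.mul (((tendsto_const_nhds.add h2).div
      (tendsto_const_nhds.sub h2)) h3)
  have h4 : circleMap 0 1 t = ei t := by simp [circleMap, ei]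
  have h5 := h1.tendsto
  rw [h4] at h5
  exact h5.mono_left nhdsWithin_le_nhds

theorem integral_exp {S : Finset ℝ} {m : ℝ → ℝ} (hm : ∀ θ ∈ S, 0 ≤ m θ)
    (h1 : ∑ θ ∈ S, m θ = 1) {s : ℝ} (hs : 0 ≤ s) :
    ∫ t in (0 : ℝ)..(2 * π), Complex.exp (-(s : ℂ) * (Complex.I * (C S m t : ℂ))) =
      2 * π * Complex.exp (-(s : ℂ)) := by
  have key : ∀ r : ℝ, 0 < r → r < 1 →
      ∫ t in (0 : ℝ)..(2 * π), Complex.exp (-(s : ℂ) * hz S m (circleMap 0 r t)) =
      2 * π * Complex.exp (-(s : ℂ)) := by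
    intro r hr0 hr1
    have hd : DifferentiableOn ℂ (fun z => Complex.exp (-(s : ℂ) * hz S m z))
        (Metric.ball 0 1) := by
      intro z hz'
      have hz1 : ‖z‖ < 1 := by simpa using hz'
      refine DifferentiableAt.differentiableWithinAt ?_
      refine DifferentiableAt.cexp ?_
      refine DifferentiableAt.const_mul ?_ _
      unfold hz
      refine DifferentiableAt.fun_sum fun θ _ => ?_
      refine DifferentiableAt.const_mul ?_ _
      exact ((differentiableAt_const _).add differentiableAt_id).div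
        ((differentiableAt_const _).sub differentiableAt_id) (ei_sub_ne' hz1)
    have hc : DiffContOnCl ℂ (fun z => Complex.exp (-(s : ℂ) * hz S m z))
        (Metric.ball 0 |r|) := by
      apply hd.diffContOnCl_ball
      intro z hz'
      rw [abs_of_pos hr0] at hz'
      have : ‖z‖ ≤ r := by simpa using hz'
      simpa using lt_of_le_of_lt this hr1
    have h2 := hc.circleAverage
    rw [Real.circleAverage_def, hz_zero h1] at h2
    rw [inv_smul_eq_iff₀ (by positivity)] at h2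
    rw [h2]
    rw [Complex.real_smul]
    push_cast
    ring_nf
  have hlim : Tendsto (fun r : ℝ => ∫ t in (0 : ℝ)..(2 * π),
      Complex.exp (-(s : ℂ) * hz S m (circleMap 0 r t))) (𝓝[<] 1)
      (𝓝 (∫ t in (0 : ℝ)..(2 * π), Complex.exp (-(s : ℂ) * (Complex.I * (C S m t : ℂ))))) := by
    have hev : ∀ᶠ r : ℝ in 𝓝[<] 1, 0 < r ∧ r < 1 := by
      have h2 : ∀ᶠ r : ℝ in 𝓝[<] 1, r < 1 := eventually_mem_nhdsWithin
      have h3 : ∀ᶠ r : ℝ in 𝓝[<] 1, 0 < r :=
        nhdsWithin_le_nhds (lt_mem_nhds (by norm_num : (0 : ℝ) < 1))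
      exact h3.and h2
    refine intervalIntegral.tendsto_integral_filter_of_dominated_convergence (fun _ => (1 : ℝ))
      ?_ ?_ ?_ ?_
    · filter_upwards [hev] with r hr
      refine Continuous.aestronglyMeasurable ?_
      refine Complex.continuous_exp.comp (continuous_const.mul ?_)
      unfold hz
      refine continuous_finsetSum _ fun θ _ => ?_
      refine continuous_const.mul ?_
      refine Continuous.div (continuous_const.add (continuous_circleMap 0 r))
        (continuous_const.sub (continuous_circleMap 0 r)) fun t => ?_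
      refine ei_sub_ne' ?_
      simp [circleMap, abs_of_pos hr.1, hr.2]
    · filter_upwards [hev] with r hr
      filter_upwards with t _
      rw [Complex.norm_exp, neg_mul, Complex.neg_re, Complex.re_ofReal_mul]
      have h2 : 0 ≤ (hz S m (circleMap 0 r t)).re :=
        hz_re hm (by simp [circleMap, abs_of_pos hr.1, hr.2])
      have h3 : 0 ≤ s * (hz S m (circleMap 0 r t)).re := mul_nonneg hs h2
      calc Real.exp (-(s * (hz S m (circleMap 0 r t)).re)) ≤ Real.exp 0 :=
            Real.exp_le_exp.2 (by linarith)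
        _ = 1 := Real.exp_zero
    · exact intervalIntegrable_const
    · filter_upwards [ae_sin_ne S] with t ht _
      exact ((Complex.continuous_exp.tendsto _).comp
        (tendsto_const_nhds.mul (tendsto_hz (m := m) ht)))
  refine tendsto_nhds_unique hlim ?_
  refine Tendsto.congr' ?_ tendsto_const_nhds
  have hev : ∀ᶠ r : ℝ in 𝓝[<] 1, 0 < r ∧ r < 1 := by
    have h2 : ∀ᶠ r : ℝ in 𝓝[<] 1, r < 1 := eventually_mem_nhdsWithin
    have h3 : ∀ᶠ r : ℝ in 𝓝[<] 1, 0 < r :=
      nhdsWithin_le_nhds (lt_mem_nhds (by norm_num : (0 : ℝ) < 1))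
    exact h3.and h2
  filter_upwards [hev] with r hr
  exact (key r hr.1 hr.2).symm

/-- the distribution of `C` -/
noncomputable def law (S : Finset ℝ) (m : ℝ → ℝ) : Measure ℝ :=
  (volume.restrict (Ioc (0 : ℝ) (2 * π))).map (C S m)

instance (S : Finset ℝ) (m : ℝ → ℝ) : IsFiniteMeasure (law S m) := by
  unfold law
  infer_instance

theorem charFun_law {S : Finset ℝ} {m : ℝ → ℝ} (hm : ∀ θ ∈ S, 0 ≤ m θ)
    (h1 : ∑ θ ∈ S, m θ = 1) {s : ℝ} (hs : 0 ≤ s) :
    charFun (law S m) (-s) = 2 * π * Complex.exp (-(s : ℂ)) := by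
  rw [← integral_exp hm h1 hs, charFun_apply_real, law,
    integral_map (measurable_C S m).aemeasurable (by
      apply Continuous.aestronglyMeasurable; fun_prop),
    intervalIntegral.integral_of_le (by positivity)]
  congr 1
  ext t
  congr 1
  push_cast
  ring

theorem law_eq {S S' : Finset ℝ} {m m' : ℝ → ℝ} (hm : ∀ θ ∈ S, 0 ≤ m θ)
    (h1 : ∑ θ ∈ S, m θ = 1) (hm' : ∀ θ ∈ S', 0 ≤ m' θ) (h1' : ∑ θ ∈ S', m' θ = 1) :
    law S m = law S' m' := by
  apply Measure.ext_of_charFun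
  ext s
  rcases le_total s 0 with hs | hs
  · have h2 := charFun_law hm h1 (s := -s) (by linarith)
    have h3 := charFun_law hm' h1' (s := -s) (by linarith)
    rw [neg_neg] at h2 h3
    rw [h2, h3]
  · have h2 := charFun_law hm h1 hs
    have h3 := charFun_law hm' h1' hs
    rw [charFun_neg] at h2 h3
    have := h2.trans h3.symm
    exact (RingHom.injective _ this)

end Pool.Agent.Q74.Circ
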