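import Mathlib
import Pool.Agent.Q74.Circ.Law

/-!
# The dual function `K`
-/

set_option autoImplicit false

namespace Pool.Agent.Q74.Circ

open Real MeasureTheory Set Filter Topology

/-- `K (cot v) = v cot v - log (sin v)` for `0 < v ≤ π / 2`, and `K` is even -/
noncomputable def K (x : ℝ) : ℝ := |x| * (π / 2 - arctan |x|) + 1 / 2 * log (1 + x ^ 2)

theorem K_neg (x : ℝ) : K (-x) = K x := by simp [K]

theorem measurable_K : Measurable K := by
  unfold K
  fun_prop

/-- `log (sin (min u (π / 2)))` -/
noncomputable def L (u : ℝ) : ℝ := log (sin (min u (π / 2)))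

theorem sin_le_tangent {u v : ℝ} (hu : u ∈ Icc 0 π) (hv : v ∈ Icc 0 π) :
    sin u ≤ sin v + (u - v) * cos v := by
  have hc : ConcaveOn ℝ (Icc 0 π) sin := strictConcaveOn_sin_Icc.concaveOn
  rcases lt_trichotomy u v with h | h | h
  · have := hc.le_slope_of_hasDerivAt hu hv h (Real.hasDerivAt_sin v)
    rw [slope_def_field, le_div_iff₀ (by linarith)] at this
    nlinarith
  · rw [h]; simp
  · have := hc.slope_le_of_hasDerivAt hv hu h (Real.hasDerivAt_sin v)
    rw [slope_def_field, div_le_iff₀ (by linarith)] at this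
    nlinarith

theorem K_ct {v : ℝ} (h0 : 0 < v) (h1 : v ≤ π / 2) : K (ct v) = v * ct v - log (sin v) := by
  have hs : 0 < sin v := sin_pos_of_pos_of_lt_pi h0 (by linarith [pi_pos])
  have hc : 0 ≤ cos v := cos_nonneg_of_neg_pi_div_two_le_of_le (by linarith) h1
  have h2 : 0 ≤ ct v := div_nonneg hc hs.le
  have h3 : arctan (ct v) = π / 2 - v := by
    have : ct v = tan (π / 2 - v) := by
      rw [tan_pi_div_two_sub, tan_eq_sin_div_cos, inv_div, ct]
    rw [this, arctan_tan (by linarith [pi_pos]) (by linarith)]
  rw [K, abs_of_nonneg h2, h3]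
  have h4 : 1 + ct v ^ 2 = (sin v ^ 2)⁻¹ := by
    rw [ct]
    field_simp
    exact sin_sq_add_cos_sq v
  rw [h4, log_inv, log_pow]
  push_cast
  ring

theorem young {x u : ℝ} (hx : 0 ≤ x) (hu : 0 < u) : K x + L u ≤ u * x := by
  set v := π / 2 - arctan x with hv
  have hv0 : 0 < v := by rw [hv]; linarith [arctan_lt_pi_div_two x]
  have hv1 : v ≤ π / 2 := by rw [hv]; linarith [arctan_nonneg.2 hx]
  have hs : 0 < sin v := sin_pos_of_pos_of_lt_pi hv0 (by linarith [pi_pos])
  have hxv : x = ct v := by
    have : ct v = tan (π / 2 - v) := by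
      rw [tan_pi_div_two_sub, tan_eq_sin_div_cos, inv_div, ct]
    rw [this, hv]
    rw [show π / 2 - (π / 2 - arctan x) = arctan x by ring, tan_arctan]
  rw [hxv, K_ct hv0 hv1, L]
  set u' := min u (π / 2) with hu'
  have h0 : 0 < u' := lt_min hu (by positivity)
  have h1 : u' ≤ π / 2 := min_le_right _ _
  have hs' : 0 < sin u' := sin_pos_of_pos_of_lt_pi h0 (by linarith [pi_pos])
  have h2 : u' * ct v ≤ u * ct v := mul_le_mul_of_nonneg_right (min_le_left _ _) (hxv ▸ hx)
  have h3 : log (sin u') - log (sin v) ≤ (u' - v) * ct v := by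
    rw [← log_div hs'.ne' hs.ne']
    have h4 := log_le_sub_one_of_pos (div_pos hs' hs)
    have h5 := sin_le_tangent (u := u') (v := v) ⟨h0.le, by linarith [pi_pos]⟩
      ⟨hv0.le, by linarith [pi_pos]⟩
    have h6 : sin u' / sin v - 1 ≤ (u' - v) * ct v := by
      rw [ct, div_sub_one hs.ne', ← mul_div_assoc]
      exact div_le_div_of_nonneg_right (by linarith) hs.le
    linarith
  nlinarith

theorem mul_log_sin {y : ℝ} (h : sinc y ≠ 0) :
    y * log (sin y) = y * log y + y * log (sinc y) := by
  rcases eq_or_ne y 0 with rfl | hy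
  · simp
  · have : sin y = y * sinc y := by rw [sinc_of_ne_zero hy]; field_simp
    rw [this, log_mul hy h]
    ring

theorem continuousAt_mul_log_sin : ContinuousAt (fun y : ℝ => y * log (sin y)) 0 := by
  have h1 : ∀ᶠ y in 𝓝 (0 : ℝ), sinc y ≠ 0 := by
    refine continuous_sinc.continuousAt.eventually_ne ?_
    rw [sinc_zero]
    exact one_ne_zero
  have h2 : ContinuousAt (fun y : ℝ => y * log y + y * log (sinc y)) 0 := by
    refine continuous_mul_log.continuousAt.add (continuousAt_id.mul ?_)
    exact ContinuousAt.log continuous_sinc.continuousAt (by rw [sinc_zero]; exact one_ne_zero)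
  refine h2.congr ?_
  filter_upwards [h1] with y hy
  exact (mul_log_sin hy).symm

theorem sinc_pos {y : ℝ} (h0 : 0 ≤ y) (h1 : y < π) : 0 < sinc y := by
  rcases h0.eq_or_lt with h | h
  · rw [← h, sinc_zero]; exact one_pos
  · rw [sinc_of_ne_zero h.ne']
    exact div_pos (sin_pos_of_pos_of_lt_pi h h1) h

theorem intervalIntegrable_mul_ct : IntervalIntegrable (fun v => v * ct v) volume 0 (π / 2) := by
  have h : IntervalIntegrable (fun v => cos v / sinc v) volume 0 (π / 2) := by
    apply ContinuousOn.intervalIntegrable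
    rw [uIcc_of_le (by positivity)]
    refine continuous_cos.continuousOn.div continuous_sinc.continuousOn fun v hv => ?_
    exact (sinc_pos hv.1 (by linarith [hv.2, pi_pos])).ne'
  refine h.congr ?_
  rw [uIoc_of_le (by positivity)]
  intro v hv
  have hs : sin v ≠ 0 := (sin_pos_of_pos_of_lt_pi hv.1 (by linarith [hv.2, pi_pos])).ne'
  have hv0 : v ≠ 0 := hv.1.ne'
  simp only [ct]
  rw [sinc_of_ne_zero hv.1.ne']
  field_simp

theorem ils {a b : ℝ} : IntervalIntegrable (fun v => log (sin v)) volume a b :=
  intervalIntegrable_log_sin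

theorem integral_mul_ct : ∫ v in (0 : ℝ)..(π / 2), v * ct v = π / 2 * log 2 := by
  have h1 : ∫ v in (0 : ℝ)..(π / 2), (log (sin v) + v * ct v) =
      (π / 2) * log (sin (π / 2)) - 0 * log (sin 0) := by
    refine intervalIntegral.integral_eq_sub_of_hasDerivAt_of_le (by positivity)
      (f := fun v => v * log (sin v)) ?_ ?_ ?_
    · intro v hv
      rcases hv.1.eq_or_lt with h | h
      · rw [← h]
        exact continuousAt_mul_log_sin.continuousWithinAt
      · have hs : sin v ≠ 0 := (sin_pos_of_pos_of_lt_pi h (by linarith [hv.2, pi_pos])).ne'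
        exact (continuousAt_id.mul (continuous_sin.continuousAt.log hs)).continuousWithinAt
    · intro v hv
      have hs : sin v ≠ 0 := (sin_pos_of_pos_of_lt_pi hv.1 (by linarith [hv.2, pi_pos])).ne'
      have := (hasDerivAt_id v).mul ((Real.hasDerivAt_sin v).log hs)
      have h2 : log (sin v) + v * ct v = 1 * log (sin v) + id v * (cos v / sin v) := by
        rw [one_mul, id, ct]
      rw [h2]
      exact this
    · exact ils.add intervalIntegrable_mul_ct
  rw [intervalIntegral.integral_add ils intervalIntegrable_mul_ct,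
    integral_log_sin_zero_pi_div_two] at h1
  simp at h1
  linarith

theorem intervalIntegrable_K_ct_half :
    IntervalIntegrable (fun v => K (ct v)) volume 0 (π / 2) := by
  refine (intervalIntegrable_mul_ct.sub intervalIntegrable_log_sin).congr ?_
  rw [uIoc_of_le (by positivity)]
  intro v hv
  exact (K_ct hv.1 hv.2).symm

theorem ct_pi_sub (v : ℝ) : ct (π - v) = - ct v := by
  simp [ct, neg_div]

theorem intervalIntegrable_K_ct : IntervalIntegrable (fun v => K (ct v)) volume 0 π := by
  refine intervalIntegrable_K_ct_half.trans ?_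
  have h := intervalIntegrable_K_ct_half.comp_sub_left π
  simp only [ct_pi_sub, K_neg] at h
  have h2 := h.symm
  convert h2 using 1 <;> ring

theorem integral_K_ct : ∫ v in (0 : ℝ)..π, K (ct v) = 2 * (π * log 2) := by
  have h1 : ∫ v in (0 : ℝ)..(π / 2), K (ct v) = π * log 2 := by
    have : ∫ v in (0 : ℝ)..(π / 2), K (ct v) = ∫ v in (0 : ℝ)..(π / 2), (v * ct v - log (sin v)) := by
      refine intervalIntegral.integral_congr_ae ?_
      filter_upwards with v hv
      rw [uIoc_of_le (by positivity)] at hv
      exact K_ct hv.1 hv.2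
    rw [this, intervalIntegral.integral_sub intervalIntegrable_mul_ct ils,
      integral_mul_ct, integral_log_sin_zero_pi_div_two]
    ring
  have h2 : ∫ v in (π / 2)..π, K (ct v) = π * log 2 := by
    have h3 := intervalIntegral.integral_comp_sub_left (a := 0) (b := π / 2)
      (fun v => K (ct v)) π
    simp only [ct_pi_sub, K_neg] at h3
    rw [h1] at h3
    rw [h3]
    congr 1 <;> ring
  have h4 : IntervalIntegrable (fun v => K (ct v)) volume (π / 2) π := by
    refine intervalIntegrable_K_ct.mono_set ?_
    rw [uIcc_of_le (by linarith [pi_pos]), uIcc_of_le (by positivity)]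
    exact Icc_subset_Icc (by positivity) le_rfl
  rw [← intervalIntegral.integral_add_adjacent_intervals intervalIntegrable_K_ct_half h4, h1, h2]
  ring

theorem integral_K_ct' : ∫ t in (0 : ℝ)..(2 * π), K (ct (t / 2)) = 4 * (π * log 2) := by
  rw [intervalIntegral.integral_comp_div (fun v => K (ct v)) two_ne_zero, zero_div,
    mul_div_cancel_left₀ _ (two_ne_zero' ℝ), integral_K_ct, smul_eq_mul]
  ring

theorem intervalIntegrable_K_ct' :
    IntervalIntegrable (fun t => K (ct (t / 2))) volume 0 (2 * π) := by
  have := intervalIntegrable_K_ct.comp_mul_right (c := 2⁻¹)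
  simp only [← div_eq_mul_inv] at this
  convert this using 1
  · simp
  · simp [mul_comm]

theorem C_zero (t : ℝ) : C {0} (fun _ => 1) t = ct (t / 2) := by simp [C]

/-- the integral of `K ∘ C` does not depend on the measure -/
theorem integral_K_C {S : Finset ℝ} {m : ℝ → ℝ} (hm : ∀ θ ∈ S, 0 ≤ m θ)
    (h1 : ∑ θ ∈ S, m θ = 1) :
    IntervalIntegrable (fun t => K (C S m t)) volume 0 (2 * π) ∧
      ∫ t in (0 : ℝ)..(2 * π), K (C S m t) = 4 * (π * log 2) := by
  have hlaw : law S m = law {0} (fun _ => 1) := law_eq hm h1 (by simp) (by simp)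
  have h2 : Integrable K (law {0} (fun _ => 1)) := by
    rw [law, integrable_map_measure measurable_K.aestronglyMeasurable
      (measurable_C _ _).aemeasurable]
    have := intervalIntegrable_K_ct'
    rw [intervalIntegrable_iff_integrableOn_Ioc_of_le (by positivity)] at this
    have h3 : K ∘ C {0} (fun _ => 1) = fun t => K (ct (t / 2)) := by
      ext t; simp [C_zero]
    rw [h3]
    exact this
  constructor
  · rw [intervalIntegrable_iff_integrableOn_Ioc_of_le (by positivity)]
    rw [← hlaw, law, integrable_map_measure measurable_K.aestronglyMeasurable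
      (measurable_C _ _).aemeasurable] at h2
    exact h2
  · have h3 : ∫ t in (0 : ℝ)..(2 * π), K (C S m t) = ∫ x, K x ∂(law S m) := by
      rw [law, integral_map (measurable_C S m).aemeasurable measurable_K.aestronglyMeasurable,
        intervalIntegral.integral_of_le (by positivity)]
    have h4 : ∫ t in (0 : ℝ)..(2 * π), K (ct (t / 2)) = ∫ x, K x ∂(law {0} (fun _ => 1)) := by
      rw [law, integral_map (measurable_C _ _).aemeasurable measurable_K.aestronglyMeasurable,
        intervalIntegral.integral_of_le (by positivity)]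
      simp only [C_zero]
    rw [h3, hlaw, ← h4, integral_K_ct']

end Pool.Agent.Q74.Circ
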