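import Mathlib
import Pool.Agent.Q74.Circ.KFun

/-!
# The inequality on one arc
-/

set_option autoImplicit false

namespace Pool.Agent.Q74.Circ

open Real MeasureTheory Set Filter Topology

theorem L_nonpos {u : ℝ} (hu : 0 ≤ u) : L u ≤ 0 := by
  rw [L]
  have h0 : 0 ≤ min u (π / 2) := le_min hu (by positivity)
  exact log_nonpos (sin_nonneg_of_nonneg_of_le_pi h0
    ((min_le_right _ _).trans (by linarith [pi_pos]))) (sin_le_one _)

theorem L_of_le {u : ℝ} (hu : u ≤ π / 2) : L u = log (sin u) := by rw [L, min_eq_left hu]

theorem L_of_ge {u : ℝ} (hu : π / 2 ≤ u) : L u = 0 := by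
  rw [L, min_eq_right hu, sin_pi_div_two, log_one]

theorem measurable_L : Measurable L := by
  unfold L
  fun_prop

theorem intervalIntegrable_L_half : IntervalIntegrable L volume 0 (π / 2) := by
  refine (ils (a := 0) (b := π / 2)).congr ?_
  rw [uIoc_of_le (by positivity)]
  intro v hv
  exact (L_of_le hv.2).symm

theorem intervalIntegrable_L_tail {A : ℝ} (hA : π / 2 ≤ A) :
    IntervalIntegrable L volume (π / 2) A := by
  refine (intervalIntegrable_const (c := (0 : ℝ))).congr ?_
  rw [uIoc_of_le hA]
  intro v hv
  exact (L_of_ge hv.1.le).symm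

theorem intervalIntegrable_L {A : ℝ} (hA : 0 ≤ A) : IntervalIntegrable L volume 0 A := by
  have h : IntervalIntegrable L volume 0 (max A (π / 2)) :=
    intervalIntegrable_L_half.trans (intervalIntegrable_L_tail (le_max_right _ _))
  refine h.mono_set ?_
  rw [uIcc_of_le hA, uIcc_of_le (hA.trans (le_max_left _ _))]
  exact Icc_subset_Icc le_rfl (le_max_left _ _)

theorem integral_L {A : ℝ} (hA : 0 ≤ A) : -(π / 2 * log 2) ≤ ∫ u in (0 : ℝ)..A, L u := by
  have h0 : ∫ u in (0 : ℝ)..(π / 2), L u = -(π / 2 * log 2) := by
    have : ∫ u in (0 : ℝ)..(π / 2), L u = ∫ u in (0 : ℝ)..(π / 2), log (sin u) := by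
      refine intervalIntegral.integral_congr_ae ?_
      filter_upwards with v hv
      rw [uIoc_of_le (by positivity)] at hv
      exact L_of_le hv.2
    rw [this, integral_log_sin_zero_pi_div_two]
    ring
  rcases le_total A (π / 2) with h | h
  · have h1 : IntervalIntegrable L volume A (π / 2) := by
      refine intervalIntegrable_L_half.mono_set ?_
      rw [uIcc_of_le h, uIcc_of_le (by positivity)]
      exact Icc_subset_Icc hA le_rfl
    have h2 := intervalIntegral.integral_add_adjacent_intervals (intervalIntegrable_L hA) h1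
    have h3 : ∫ u in A..(π / 2), L u ≤ 0 := by
      have := intervalIntegral.integral_mono_on h h1 (intervalIntegrable_const (c := (0 : ℝ)))
        (fun u hu => L_nonpos (hA.trans hu.1))
      simpa using this
    linarith
  · have h2 := intervalIntegral.integral_add_adjacent_intervals intervalIntegrable_L_half
      (intervalIntegrable_L_tail h)
    have h3 : ∫ u in (π / 2)..A, L u = 0 := by
      have : ∫ u in (π / 2)..A, L u = ∫ u in (π / 2)..A, (0 : ℝ) := by
        refine intervalIntegral.integral_congr_ae ?_
        filter_upwards with v hv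
        rw [uIoc_of_le h] at hv
        exact L_of_ge hv.1.le
      rw [this]; simp
    linarith

theorem integral_L' {n a w : ℝ} (hn : 0 < n) (haw : a ≤ w) :
    IntervalIntegrable (fun t => L (n / 2 * (t - a))) volume a w ∧
    -(π * log 2 / n) ≤ ∫ t in a..w, L (n / 2 * (t - a)) := by
  have hA : 0 ≤ n / 2 * (w - a) := mul_nonneg (by positivity) (by linarith)
  have h1 : IntervalIntegrable (fun t => L (n / 2 * t)) volume 0 (w - a) := by
    have := (intervalIntegrable_L hA).comp_mul_left (c := n / 2)
    convert this using 1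
    · simp
    · field_simp
  constructor
  · have := h1.comp_sub_right a
    simpa using this
  · rw [intervalIntegral.integral_comp_sub_right (fun t => L (n / 2 * t)), sub_self,
      intervalIntegral.integral_comp_mul_left _ (by positivity), mul_zero, smul_eq_mul]
    have h2 := integral_L hA
    have h3 : 0 < (n / 2)⁻¹ := by positivity
    calc -(π * log 2 / n) = (n / 2)⁻¹ * (-(π / 2 * log 2)) := by field_simp
      _ ≤ _ := mul_le_mul_of_nonneg_left h2 h3.le

theorem arc_left {V c : ℝ → ℝ} {a w M n : ℝ} (hn : 0 < n) (haw : a < w)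
    (hd : ∀ t ∈ Ioo a w, HasDerivAt V (c t / 2) t) (hc : ∀ t ∈ Ioo a w, 0 ≤ c t)
    (hcont : ContinuousOn (fun t => (t - a) * (M - V t)) (Icc a w)) (hVw : V w ≤ M)
    (hV : IntervalIntegrable V volume a w)
    (hK : IntervalIntegrable (fun t => K (c t)) volume a w) :
    (∫ t in a..w, K (c t)) / n - π * log 2 / n ^ 2 ≤ ∫ t in a..w, (M - V t) := by
  obtain ⟨hL1, hL2⟩ := integral_L' hn haw.le
  have hMV : IntervalIntegrable (fun t => M - V t) volume a w :=
    intervalIntegrable_const.sub hV
  have hKL : IntervalIntegrable (fun t => (K (c t) + L (n / 2 * (t - a))) / n) volume a w :=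
    (hK.add hL1).div_const n
  have key := intervalIntegral.sub_le_integral_of_hasDeriv_right_of_le haw.le hcont
    (g' := fun t => 1 * (M - V t) + (t - a) * (0 - c t / 2))
    (φ := fun t => (M - V t) - (K (c t) + L (n / 2 * (t - a))) / n) ?_ ?_ ?_
  · simp only [sub_self, zero_mul, sub_zero] at key
    rw [intervalIntegral.integral_sub hMV hKL, intervalIntegral.integral_div,
      intervalIntegral.integral_add hK hL1] at key
    have h1 : 0 ≤ (w - a) * (M - V w) := mul_nonneg (by linarith) (by linarith)
    have h2 : -(π * log 2 / n) / n ≤ (∫ t in a..w, L (n / 2 * (t - a))) / n :=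
      div_le_div_of_nonneg_right hL2 hn.le
    have h3 : -(π * log 2 / n) / n = -(π * log 2 / n ^ 2) := by field_simp
    rw [add_div] at key
    linarith
  · intro t ht
    exact (((hasDerivAt_id t).sub_const a).mul
      ((hasDerivAt_const t M).sub (hd t ht))).hasDerivWithinAt
  · rw [integrableOn_Icc_iff_integrableOn_Ioc,
      ← intervalIntegrable_iff_integrableOn_Ioc_of_le haw.le]
    exact hMV.sub hKL
  · intro t ht
    have h1 := young (hc t ht) (u := n / 2 * (t - a)) (mul_pos (by positivity) (by linarith [ht.1]))
    have h2 : (K (c t) + L (n / 2 * (t - a))) / n ≤ (t - a) * (c t / 2) := by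
      rw [div_le_iff₀ hn]
      linarith
    linarith

theorem arc_right {V c : ℝ → ℝ} {b w M n : ℝ} (hn : 0 < n) (hwb : w < b)
    (hd : ∀ t ∈ Ioo w b, HasDerivAt V (c t / 2) t) (hc : ∀ t ∈ Ioo w b, c t ≤ 0)
    (hcont : ContinuousOn (fun t => (t - b) * (M - V t)) (Icc w b)) (hVw : V w ≤ M)
    (hV : IntervalIntegrable V volume w b)
    (hK : IntervalIntegrable (fun t => K (c t)) volume w b) :
    (∫ t in w..b, K (c t)) / n - π * log 2 / n ^ 2 ≤ ∫ t in w..b, (M - V t) := by
  have h1 := arc_left (V := fun s => V (-s)) (c := fun s => - c (-s)) (a := -b) (w := -w)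
    (M := M) hn (by linarith) ?_ ?_ ?_ ?_ ?_ ?_
  · simp only [K_neg] at h1
    rw [intervalIntegral.integral_comp_neg (fun t => K (c t)),
      intervalIntegral.integral_comp_neg (fun t => M - V t)] at h1
    simpa using h1
  · intro s hs
    have := (hd (-s) ⟨by linarith [hs.2], by linarith [hs.1]⟩).comp s (hasDerivAt_neg s)
    have h3 : -c (-s) / 2 = c (-s) / 2 * -1 := by ring
    rw [h3]
    exact this
  · intro s hs
    have := hc (-s) ⟨by linarith [hs.2], by linarith [hs.1]⟩
    linarith
  · have h2 : (fun s : ℝ => (s - -b) * (M - V (-s))) =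
        (fun s => -1 * ((fun t => (t - b) * (M - V t)) (-s))) := by
      ext s
      simp only
      ring
    rw [h2]
    refine continuousOn_const.mul (hcont.comp continuous_neg.continuousOn ?_)
    intro s hs
    exact ⟨by linarith [hs.2], by linarith [hs.1]⟩
  · simpa using hVw
  · have := hV.comp_mul_left (c := -1)
    simp only [neg_mul, one_mul, div_neg, div_one] at this
    exact this.symm
  · simp only [K_neg]
    have := hK.comp_mul_left (c := -1)
    simp only [neg_mul, one_mul, div_neg, div_one] at this
    exact this.symm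

end Pool.Agent.Q74.Circ
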