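import Mathlib
import Pool.Agent.Q74.Circ.Arc

/-!
# The normalised logarithm of the product of distances
-/

set_option autoImplicit false

namespace Pool.Agent.Q74.Circ

open Real MeasureTheory Set Filter Topology

/-- the weighted mean of the logarithms `log (2 |sin ((t - θ) / 2)|)` of the distances -/
noncomputable def V (S : Finset ℝ) (m : ℝ → ℝ) (t : ℝ) : ℝ :=
  ∑ θ ∈ S, m θ * (log 2 + log (sin ((t - θ) / 2)))

theorem hasDerivAt_V {S : Finset ℝ} {m : ℝ → ℝ} {t : ℝ}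
    (h : ∀ θ ∈ S, sin ((t - θ) / 2) ≠ 0) : HasDerivAt (V S m) (C S m t / 2) t := by
  have h1 : C S m t / 2 = ∑ θ ∈ S, m θ * (ct ((t - θ) / 2) / 2) := by
    rw [C, Finset.sum_div]
    refine Finset.sum_congr rfl fun θ _ => by ring
  rw [h1]
  unfold V
  refine HasDerivAt.fun_sum fun θ hθ => ?_
  have h2 : HasDerivAt (fun t : ℝ => (t - θ) / 2) (1 / 2) t :=
    ((hasDerivAt_id t).sub_const θ).div_const 2
  have h3 := ((h2.sin.log (h θ hθ)).const_add (log 2)).const_mul (m θ)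
  have h4 : ct ((t - θ) / 2) / 2 = cos ((t - θ) / 2) * (1 / 2) / sin ((t - θ) / 2) := by
    rw [ct]; ring
  rw [h4]
  exact h3

theorem hasDerivAt_ct {y : ℝ} (h : sin y ≠ 0) : HasDerivAt ct (-(1 / sin y ^ 2)) y := by
  have h1 := (Real.hasDerivAt_cos y).div (Real.hasDerivAt_sin y) h
  have h2 : -(1 / sin y ^ 2) = (-sin y * sin y - cos y * cos y) / sin y ^ 2 := by
    rw [← neg_div]
    congr 1
    have := sin_sq_add_cos_sq y
    linarith
  rw [h2]
  exact h1

theorem hasDerivAt_C {S : Finset ℝ} {m : ℝ → ℝ} {t : ℝ}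
    (h : ∀ θ ∈ S, sin ((t - θ) / 2) ≠ 0) :
    HasDerivAt (C S m) (∑ θ ∈ S, m θ * (-(1 / sin ((t - θ) / 2) ^ 2) * (1 / 2))) t := by
  unfold C
  refine HasDerivAt.fun_sum fun θ hθ => ?_
  have h2 : HasDerivAt (fun t : ℝ => (t - θ) / 2) (1 / 2) t :=
    ((hasDerivAt_id t).sub_const θ).div_const 2
  exact ((hasDerivAt_ct (h θ hθ)).comp t h2).const_mul (m θ)

theorem antitoneOn_C {S : Finset ℝ} {m : ℝ → ℝ} {a b : ℝ} (hm : ∀ θ ∈ S, 0 ≤ m θ)
    (h : ∀ t ∈ Ioo a b, ∀ θ ∈ S, sin ((t - θ) / 2) ≠ 0) : AntitoneOn (C S m) (Ioo a b) := by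
  refine antitoneOn_of_deriv_nonpos (convex_Ioo a b) ?_ ?_ ?_
  · intro t ht
    exact (hasDerivAt_C (h t ht)).continuousAt.continuousWithinAt
  · rw [interior_Ioo]
    intro t ht
    exact (hasDerivAt_C (h t ht)).differentiableAt.differentiableWithinAt
  · rw [interior_Ioo]
    intro t ht
    rw [(hasDerivAt_C (h t ht)).deriv]
    refine Finset.sum_nonpos fun θ hθ => ?_
    have : 0 ≤ 1 / sin ((t - θ) / 2) ^ 2 := by positivity
    have := hm θ hθ
    exact mul_nonpos_of_nonneg_of_nonpos this (by linarith)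

theorem tendsto_ct_zero_right : Tendsto ct (𝓝[>] 0) atTop := by
  have h1 : Tendsto cos (𝓝[>] 0) (𝓝 1) := by
    have := (continuous_cos.tendsto 0).mono_left (nhdsWithin_le_nhds (s := Ioi 0))
    rwa [cos_zero] at this
  have h2 : Tendsto sin (𝓝[>] 0) (𝓝[>] 0) := by
    rw [tendsto_nhdsWithin_iff]
    constructor
    · have := (continuous_sin.tendsto 0).mono_left (nhdsWithin_le_nhds (s := Ioi 0))
      rwa [sin_zero] at this
    · have h3 : ∀ᶠ y : ℝ in 𝓝[>] 0, y < π :=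
        nhdsWithin_le_nhds (gt_mem_nhds pi_pos)
      filter_upwards [h3, self_mem_nhdsWithin] with y hy hy0
      exact sin_pos_of_pos_of_lt_pi hy0 hy
  have h3 := Tendsto.pos_mul_atTop one_pos h1 (tendsto_inv_nhdsGT_zero.comp h2)
  refine h3.congr fun y => ?_
  simp [ct, div_eq_mul_inv]

theorem ct_neg (y : ℝ) : ct (-y) = - ct y := by simp [ct, div_neg]

theorem ct_add_int_mul_pi (y : ℝ) (k : ℤ) : ct (y + k * π) = ct y := by
  rw [ct, ct, cos_add_int_mul_pi, sin_add_int_mul_pi]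
  have h : ((-1 : ℝ) ^ k) ≠ 0 := zpow_ne_zero _ (by norm_num)
  rw [mul_div_mul_left _ _ h]

theorem ct_shift {a θ : ℝ} (h : sin ((a - θ) / 2) = 0) (t : ℝ) :
    ct ((t - θ) / 2) = ct ((t - a) / 2) := by
  obtain ⟨k, hk⟩ := Real.sin_eq_zero_iff.1 h
  rw [show (t - θ) / 2 = (t - a) / 2 + k * π by rw [hk]; ring, ct_add_int_mul_pi]

theorem log_sin_shift {a θ : ℝ} (h : sin ((a - θ) / 2) = 0) (t : ℝ) :
    log (sin ((t - θ) / 2)) = log (sin ((t - a) / 2)) := by
  obtain ⟨k, hk⟩ := Real.sin_eq_zero_iff.1 h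
  rw [show (t - θ) / 2 = (t - a) / 2 + k * π by rw [hk]; ring, sin_add_int_mul_pi]
  rcases Int.even_or_odd k with h | h
  · rw [h.neg_one_zpow, one_mul]
  · rw [h.neg_one_zpow, neg_one_mul, log_neg_eq_log]

theorem tendsto_half_right (a : ℝ) : Tendsto (fun t : ℝ => (t - a) / 2) (𝓝[>] a) (𝓝[>] 0) := by
  rw [tendsto_nhdsWithin_iff]
  constructor
  · have h : ContinuousAt (fun t : ℝ => (t - a) / 2) a := by fun_prop
    have := h.tendsto.mono_left (nhdsWithin_le_nhds (s := Ioi a))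
    simpa using this
  · filter_upwards [self_mem_nhdsWithin] with t ht
    have : a < t := ht
    show 0 < (t - a) / 2
    linarith

theorem tendsto_half_left (a : ℝ) : Tendsto (fun t : ℝ => (a - t) / 2) (𝓝[<] a) (𝓝[>] 0) := by
  rw [tendsto_nhdsWithin_iff]
  constructor
  · have h : ContinuousAt (fun t : ℝ => (a - t) / 2) a := by fun_prop
    have := h.tendsto.mono_left (nhdsWithin_le_nhds (s := Iio a))
    simpa using this
  · filter_upwards [self_mem_nhdsWithin] with t ht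
    have : t < a := ht
    show 0 < (a - t) / 2
    linarith

theorem C_split {S : Finset ℝ} {m : ℝ → ℝ} {a : ℝ} (t : ℝ) :
    C S m t = (∑ θ ∈ S with sin ((a - θ) / 2) = 0, m θ) * ct ((t - a) / 2) +
      ∑ θ ∈ S with ¬ sin ((a - θ) / 2) = 0, m θ * ct ((t - θ) / 2) := by
  rw [C, ← Finset.sum_filter_add_sum_filter_not S (fun θ => sin ((a - θ) / 2) = 0),
    Finset.sum_mul]
  congr 1
  refine Finset.sum_congr rfl fun θ hθ => ?_
  rw [ct_shift (Finset.mem_filter.1 hθ).2]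

theorem continuousAt_rest {S : Finset ℝ} {m : ℝ → ℝ} {a : ℝ} :
    ContinuousAt (fun t => ∑ θ ∈ S with ¬ sin ((a - θ) / 2) = 0, m θ * ct ((t - θ) / 2)) a := by
  refine tendsto_finsetSum _ fun θ hθ => ?_
  have h := (Finset.mem_filter.1 hθ).2
  have h1 : ContinuousAt (fun t : ℝ => ct ((t - θ) / 2)) a :=
    ContinuousAt.comp (f := fun t : ℝ => (t - θ) / 2) (hasDerivAt_ct h).continuousAt (by fun_prop)
  exact tendsto_const_nhds.mul h1

theorem weight_pos {S : Finset ℝ} {m : ℝ → ℝ} {a : ℝ} (hm : ∀ θ ∈ S, 0 < m θ)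
    (ha : ∃ θ ∈ S, sin ((a - θ) / 2) = 0) :
    0 < ∑ θ ∈ S with sin ((a - θ) / 2) = 0, m θ := by
  obtain ⟨θ, hθ, h⟩ := ha
  exact Finset.sum_pos (fun θ hθ => hm θ (Finset.mem_filter.1 hθ).1)
    ⟨θ, Finset.mem_filter.2 ⟨hθ, h⟩⟩

theorem tendsto_C_right {S : Finset ℝ} {m : ℝ → ℝ} {a : ℝ} (hm : ∀ θ ∈ S, 0 < m θ)
    (ha : ∃ θ ∈ S, sin ((a - θ) / 2) = 0) : Tendsto (C S m) (𝓝[>] a) atTop := by
  have h1 := tendsto_ct_zero_right.comp (tendsto_half_right a)
  have h2 := Tendsto.const_mul_atTop (weight_pos hm ha) h1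
  have h3 := (continuousAt_rest (S := S) (m := m) (a := a)).tendsto.mono_left
    (nhdsWithin_le_nhds (s := Ioi a))
  exact (h2.atTop_add h3).congr fun t => (C_split t).symm

theorem tendsto_C_left {S : Finset ℝ} {m : ℝ → ℝ} {a : ℝ} (hm : ∀ θ ∈ S, 0 < m θ)
    (ha : ∃ θ ∈ S, sin ((a - θ) / 2) = 0) : Tendsto (C S m) (𝓝[<] a) atBot := by
  have h1 : Tendsto (fun t => ct ((t - a) / 2)) (𝓝[<] a) atBot := by
    have := tendsto_neg_atTop_atBot.comp (tendsto_ct_zero_right.comp (tendsto_half_left a))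
    refine this.congr fun t => ?_
    simp only [Function.comp]
    rw [← ct_neg]
    congr 1
    ring
  have h2 := Tendsto.const_mul_atBot (weight_pos hm ha) h1
  have h3 := (continuousAt_rest (S := S) (m := m) (a := a)).tendsto.mono_left
    (nhdsWithin_le_nhds (s := Iio a))
  exact (h2.atBot_add h3).congr fun t => (C_split t).symm

theorem exists_zero_C {S : Finset ℝ} {m : ℝ → ℝ} {a b : ℝ} (hab : a < b)
    (hm : ∀ θ ∈ S, 0 < m θ)
    (ha : ∃ θ ∈ S, sin ((a - θ) / 2) = 0) (hb : ∃ θ ∈ S, sin ((b - θ) / 2) = 0)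
    (h : ∀ t ∈ Ioo a b, ∀ θ ∈ S, sin ((t - θ) / 2) ≠ 0) :
    ∃ w ∈ Ioo a b, (∀ t ∈ Ioo a w, 0 ≤ C S m t) ∧ (∀ t ∈ Ioo w b, C S m t ≤ 0) := by
  have hanti := antitoneOn_C (fun θ hθ => (hm θ hθ).le) h
  obtain ⟨s1, hs1, h1⟩ : ∃ s ∈ Ioo a b, 0 < C S m s := by
    have e1 : ∀ᶠ s in 𝓝[>] a, 0 < C S m s := (tendsto_C_right hm ha).eventually_gt_atTop 0
    have e2 : ∀ᶠ s in 𝓝[>] a, s ∈ Ioo a b := Ioo_mem_nhdsGT hab
    obtain ⟨s, hs⟩ := (e2.and e1).exists
    exact ⟨s, hs.1, hs.2⟩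
  obtain ⟨s2, hs2, h2⟩ : ∃ s ∈ Ioo a b, C S m s < 0 := by
    have e1 : ∀ᶠ s in 𝓝[<] b, C S m s < 0 := (tendsto_C_left hm hb).eventually_lt_atBot 0
    have e2 : ∀ᶠ s in 𝓝[<] b, s ∈ Ioo a b := Ioo_mem_nhdsLT hab
    obtain ⟨s, hs⟩ := (e2.and e1).exists
    exact ⟨s, hs.1, hs.2⟩
  have h12 : s1 ≤ s2 := by
    by_contra h12
    push Not at h12
    have := hanti hs2 hs1 h12.le
    linarith
  have hcont : ContinuousOn (C S m) (Icc s1 s2) := by
    intro t ht
    exact (hasDerivAt_C (h t ⟨lt_of_lt_of_le hs1.1 ht.1, lt_of_le_of_lt ht.2 hs2.2⟩)).continuousAt.continuousWithinAt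
  obtain ⟨w, hw, hw0⟩ := intermediate_value_Icc' h12 hcont ⟨h2.le, h1.le⟩
  have hwab : w ∈ Ioo a b := ⟨lt_of_lt_of_le hs1.1 hw.1, lt_of_le_of_lt hw.2 hs2.2⟩
  refine ⟨w, hwab, fun t ht => ?_, fun t ht => ?_⟩
  · have := hanti ⟨ht.1, ht.2.trans hwab.2⟩ hwab ht.2.le
    linarith
  · have := hanti hwab ⟨hwab.1.trans ht.1, ht.2⟩ ht.1.le
    linarith

theorem intervalIntegrable_log_sin_half (θ a b : ℝ) :
    IntervalIntegrable (fun t => log (sin ((t - θ) / 2))) volume a b := by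
  have h1 : IntervalIntegrable (fun t => log (sin (t / 2))) volume (a - θ) (b - θ) := by
    have := (ils (a := (a - θ) * 2⁻¹) (b := (b - θ) * 2⁻¹)).comp_mul_right (c := 2⁻¹)
    simp only [← div_eq_mul_inv] at this
    convert this using 1
    · simp
    · simp
  have := h1.comp_sub_right θ
  simpa using this

theorem intervalIntegrable_V (S : Finset ℝ) (m : ℝ → ℝ) (a b : ℝ) :
    IntervalIntegrable (V S m) volume a b := by
  have : V S m = ∑ θ ∈ S, fun t => m θ * (log 2 + log (sin ((t - θ) / 2))) := by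
    ext t; simp [V]
  rw [this]
  refine IntervalIntegrable.sum _ fun θ _ => ?_
  exact (intervalIntegrable_const.add (intervalIntegrable_log_sin_half θ a b)).const_mul _

theorem continuousAt_mul_log (θ t0 : ℝ) :
    ContinuousAt (fun t => (t - t0) * log (sin ((t - θ) / 2))) t0 := by
  by_cases h : sin ((t0 - θ) / 2) = 0
  · have h1 : (fun t => (t - t0) * log (sin ((t - θ) / 2))) =
        fun t => 2 * ((fun y : ℝ => y * log (sin y)) ((t - t0) / 2)) := by
      ext t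
      rw [log_sin_shift h t]
      ring
    rw [h1]
    have h2 : ContinuousAt (fun t : ℝ => (t - t0) / 2) t0 := by fun_prop
    have h3 : ContinuousAt (fun y : ℝ => y * log (sin y)) ((t0 - t0) / 2) := by
      rw [sub_self, zero_div]
      exact continuousAt_mul_log_sin
    exact continuousAt_const.mul (ContinuousAt.comp (f := fun t : ℝ => (t - t0) / 2)
      (g := fun y : ℝ => y * log (sin y)) h3 h2)
  · have h2 : ContinuousAt (fun t : ℝ => sin ((t - θ) / 2)) t0 := by fun_prop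
    have h3 : ContinuousAt (fun t : ℝ => (t - t0)) t0 := by fun_prop
    exact h3.mul (h2.log h)

theorem continuousAt_mul_V (S : Finset ℝ) (m : ℝ → ℝ) (M t0 : ℝ) :
    ContinuousAt (fun t => (t - t0) * (M - V S m t)) t0 := by
  have h : (fun t => (t - t0) * (M - V S m t)) = fun t => (t - t0) * M -
      ∑ θ ∈ S, m θ * ((t - t0) * log 2 + (t - t0) * log (sin ((t - θ) / 2))) := by
    ext t
    rw [V, mul_sub, Finset.mul_sum]
    congr 1
    refine Finset.sum_congr rfl fun θ _ => by ring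
  rw [h]
  have h3 : ContinuousAt (fun t : ℝ => (t - t0)) t0 := by fun_prop
  refine (h3.mul continuousAt_const).sub ?_
  refine tendsto_finsetSum _ fun θ hθ => ?_
  exact continuousAt_const.mul ((h3.mul continuousAt_const).add (continuousAt_mul_log θ t0))

theorem arc {S : Finset ℝ} {m : ℝ → ℝ} {a b M n : ℝ} (hab : a < b) (hn : 0 < n)
    (hm : ∀ θ ∈ S, 0 < m θ)
    (ha : ∃ θ ∈ S, sin ((a - θ) / 2) = 0) (hb : ∃ θ ∈ S, sin ((b - θ) / 2) = 0)
    (h : ∀ t ∈ Ioo a b, ∀ θ ∈ S, sin ((t - θ) / 2) ≠ 0)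
    (hM : ∀ t ∈ Ioo a b, V S m t ≤ M)
    (hK : IntervalIntegrable (fun t => K (C S m t)) volume a b) :
    (∫ t in a..b, K (C S m t)) / n - 2 * π * log 2 / n ^ 2 ≤ ∫ t in a..b, (M - V S m t) := by
  obtain ⟨w, hw, h1, h2⟩ := exists_zero_C hab hm ha hb h
  have hcontV : ∀ t ∈ Ioo a b, ContinuousAt (V S m) t := fun t ht =>
    (hasDerivAt_V (h t ht)).continuousAt
  have hK1 : IntervalIntegrable (fun t => K (C S m t)) volume a w := by
    refine hK.mono_set ?_
    rw [uIcc_of_le hw.1.le, uIcc_of_le hab.le]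
    exact Icc_subset_Icc le_rfl hw.2.le
  have hK2 : IntervalIntegrable (fun t => K (C S m t)) volume w b := by
    refine hK.mono_set ?_
    rw [uIcc_of_le hw.2.le, uIcc_of_le hab.le]
    exact Icc_subset_Icc hw.1.le le_rfl
  have l := arc_left (V := V S m) (c := C S m) (M := M) hn hw.1
    (fun t ht => hasDerivAt_V (h t ⟨ht.1, ht.2.trans hw.2⟩)) h1 ?_ (hM w hw)
    (intervalIntegrable_V S m a w) hK1
  · have r := arc_right (V := V S m) (c := C S m) (M := M) hn hw.2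
      (fun t ht => hasDerivAt_V (h t ⟨hw.1.trans ht.1, ht.2⟩)) h2 ?_ (hM w hw)
      (intervalIntegrable_V S m w b) hK2
    · rw [← intervalIntegral.integral_add_adjacent_intervals hK1 hK2,
        ← intervalIntegral.integral_add_adjacent_intervals
          (intervalIntegrable_const.sub (intervalIntegrable_V S m a w))
          (intervalIntegrable_const.sub (intervalIntegrable_V S m w b)), add_div]
      have : 2 * π * log 2 / n ^ 2 = π * log 2 / n ^ 2 + π * log 2 / n ^ 2 := by ring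
      linarith
    · intro t ht
      rcases ht.2.eq_or_lt with h3 | h3
      · rw [h3]
        exact (continuousAt_mul_V S m M b).continuousWithinAt
      · have h4 : ContinuousAt (fun t : ℝ => t - b) t := by fun_prop
        exact (h4.mul (continuousAt_const.sub
          (hcontV t ⟨lt_of_lt_of_le hw.1 ht.1, h3⟩))).continuousWithinAt
  · intro t ht
    rcases ht.1.eq_or_lt with h3 | h3
    · rw [← h3]
      exact (continuousAt_mul_V S m M a).continuousWithinAt
    · have h4 : ContinuousAt (fun t : ℝ => t - a) t := by fun_prop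
      exact (h4.mul (continuousAt_const.sub
        (hcontV t ⟨h3, lt_of_le_of_lt ht.2 hw.2⟩))).continuousWithinAt

end Pool.Agent.Q74.Circ
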