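import Mathlib
import Pool.Agent.Q74.Circ.Vfun

/-!
# Summing the inequality over the arcs
-/

set_option autoImplicit false

namespace Pool.Agent.Q74.Circ

open Real MeasureTheory Set Filter Topology

theorem integral_log_sin_shift (θ : ℝ) :
    ∫ t in (0 : ℝ)..(2 * π), log (sin ((t - θ) / 2)) = -(2 * π * log 2) := by
  have hper : Function.Periodic (fun t : ℝ => log (sin (t / 2))) (2 * π) := by
    intro t
    simp only
    rw [show (t + 2 * π) / 2 = t / 2 + π by ring, sin_add_pi, log_neg_eq_log]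
  rw [intervalIntegral.integral_comp_sub_right (fun t => log (sin (t / 2)))]
  have h1 := hper.intervalIntegral_add_eq (0 - θ) 0
  rw [show 0 - θ + 2 * π = 2 * π - θ by ring, zero_add] at h1
  rw [h1, intervalIntegral.integral_comp_div (fun v => log (sin v)) two_ne_zero, zero_div,
    mul_div_cancel_left₀ _ (two_ne_zero' ℝ), integral_log_sin_zero_pi, smul_eq_mul]
  ring

theorem integral_V (S : Finset ℝ) (m : ℝ → ℝ) : ∫ t in (0 : ℝ)..(2 * π), V S m t = 0 := by
  unfold V
  rw [intervalIntegral.integral_finsetSum]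
  · refine Finset.sum_eq_zero fun θ _ => ?_
    rw [intervalIntegral.integral_const_mul, intervalIntegral.integral_add
      intervalIntegrable_const (intervalIntegrable_log_sin_half θ _ _),
      integral_log_sin_shift, intervalIntegral.integral_const, smul_eq_mul]
    ring
  · intro θ _
    exact (intervalIntegrable_const.add (intervalIntegrable_log_sin_half θ _ _)).const_mul _

theorem no_atom {S : Finset ℝ} (hS : ∀ θ ∈ S, θ ∈ Ico 0 (2 * π)) {a b : ℝ} (ha : 0 ≤ a)
    (hb : b ≤ 2 * π) (h : ∀ θ ∈ S, θ < b → θ ≤ a) :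
    ∀ t ∈ Ioo a b, ∀ θ ∈ S, sin ((t - θ) / 2) ≠ 0 := by
  intro t ht θ hθ h0
  have h1 := hS θ hθ
  rcases le_or_gt b θ with h2 | h2
  · have h3 : sin ((θ - t) / 2) = 0 := by
      rw [show (θ - t) / 2 = -((t - θ) / 2) by ring, sin_neg, h0, neg_zero]
    have h4 : 0 < sin ((θ - t) / 2) := sin_pos_of_pos_of_lt_pi (by linarith [ht.2])
      (by linarith [ht.1, h1.2])
    linarith
  · have h5 := h θ hθ h2
    have h4 : 0 < sin ((t - θ) / 2) := sin_pos_of_pos_of_lt_pi (by linarith [ht.1])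
      (by linarith [ht.2, h1.1])
    linarith

theorem sum_arcs {S : Finset ℝ} {m : ℝ → ℝ} {M n : ℝ} (hn : 0 < n)
    (hS : ∀ θ ∈ S, θ ∈ Ico 0 (2 * π)) (h0 : (0 : ℝ) ∈ S) (hm : ∀ θ ∈ S, 0 < m θ)
    (hM : ∀ t, (∀ θ ∈ S, sin ((t - θ) / 2) ≠ 0) → V S m t ≤ M)
    (hK : IntervalIntegrable (fun t => K (C S m t)) volume 0 (2 * π)) :
    ∀ k : ℕ, ∀ b : ℝ, (S.filter (fun θ => θ < b)).card = k → 0 ≤ b → b ≤ 2 * π →
      (∃ θ ∈ S, sin ((b - θ) / 2) = 0) →
      (∫ t in (0 : ℝ)..b, K (C S m t)) / n - k * (2 * π * log 2 / n ^ 2) ≤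
        ∫ t in (0 : ℝ)..b, (M - V S m t) := by
  intro k
  induction k with
  | zero =>
    intro b hk hb0 hb1 hb
    have h1 : b = 0 := by
      rw [Finset.card_eq_zero, Finset.filter_eq_empty_iff] at hk
      have := hk h0
      linarith
    rw [h1]
    simp
  | succ k ih =>
    intro b hk hb0 hb1 hb
    have hne : (S.filter (fun θ => θ < b)).Nonempty := by
      rw [← Finset.card_pos, hk]; exact Nat.succ_pos k
    set a := (S.filter (fun θ => θ < b)).max' hne with ha
    have hamem := (S.filter (fun θ => θ < b)).max'_mem hne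
    rw [← ha, Finset.mem_filter] at hamem
    obtain ⟨haS, hab⟩ := hamem
    have hle : ∀ θ ∈ S, θ < b → θ ≤ a := fun θ hθ h =>
      (S.filter (fun θ => θ < b)).le_max' θ (Finset.mem_filter.2 ⟨hθ, h⟩)
    have ha0 : 0 ≤ a := (hS a haS).1
    have hak : (S.filter (fun θ => θ < a)).card = k := by
      have : S.filter (fun θ => θ < b) = insert a (S.filter (fun θ => θ < a)) := by
        ext θ
        simp only [Finset.mem_filter, Finset.mem_insert]
        constructor
        · rintro ⟨h1, h2⟩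
          rcases (hle θ h1 h2).eq_or_lt with h3 | h3
          · exact Or.inl h3
          · exact Or.inr ⟨h1, h3⟩
        · rintro (h | h)
          · rw [h]; exact ⟨haS, hab⟩
          · exact ⟨h.1, h.2.trans hab⟩
      rw [this, Finset.card_insert_of_notMem (by simp)] at hk
      exact Nat.succ_injective hk
    have haat : ∃ θ ∈ S, sin ((a - θ) / 2) = 0 := ⟨a, haS, by simp⟩
    have h1 := ih a hak ha0 (hab.le.trans hb1) haat
    have hno := no_atom hS ha0 hb1 hle
    have hK1 : IntervalIntegrable (fun t => K (C S m t)) volume 0 a := by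
      refine hK.mono_set ?_
      rw [uIcc_of_le ha0, uIcc_of_le (by positivity)]
      exact Icc_subset_Icc le_rfl (hab.le.trans hb1)
    have hK2 : IntervalIntegrable (fun t => K (C S m t)) volume a b := by
      refine hK.mono_set ?_
      rw [uIcc_of_le hab.le, uIcc_of_le (by positivity)]
      exact Icc_subset_Icc ha0 hb1
    have h2 := arc hab hn hm haat hb hno (fun t ht => hM t (hno t ht)) hK2
    rw [← intervalIntegral.integral_add_adjacent_intervals hK1 hK2,
      ← intervalIntegral.integral_add_adjacent_intervals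
        (intervalIntegrable_const.sub (intervalIntegrable_V S m 0 a))
        (intervalIntegrable_const.sub (intervalIntegrable_V S m a b)), add_div]
    push_cast
    linarith

/-- The normalised inequality. -/
theorem main_ineq {S : Finset ℝ} {m : ℝ → ℝ} {M : ℝ}
    (hS : ∀ θ ∈ S, θ ∈ Ico 0 (2 * π)) (h0 : (0 : ℝ) ∈ S) (hm : ∀ θ ∈ S, 0 < m θ)
    (h1 : ∑ θ ∈ S, m θ = 1)
    (hM : ∀ t, (∀ θ ∈ S, sin ((t - θ) / 2) ≠ 0) → V S m t ≤ M) :
    log 2 / S.card ≤ M := by
  obtain ⟨hK, hKi⟩ := integral_K_C (fun θ hθ => (hm θ hθ).le) h1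
  have hcard : 0 < (S.card : ℝ) := by exact_mod_cast Finset.card_pos.2 ⟨0, h0⟩
  have hfil : S.filter (fun θ => θ < 2 * π) = S := by
    rw [Finset.filter_eq_self]
    exact fun θ hθ => (hS θ hθ).2
  have h2 := sum_arcs hcard hS h0 hm hM hK S.card (2 * π) (by rw [hfil]) (by positivity) le_rfl
    ⟨0, h0, by
      rw [sub_zero, mul_div_cancel_left₀ _ (two_ne_zero' ℝ), sin_pi]⟩
  rw [hKi, intervalIntegral.integral_sub intervalIntegrable_const (intervalIntegrable_V S m _ _),
    integral_V, intervalIntegral.integral_const, smul_eq_mul, sub_zero, sub_zero] at h2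
  have h3 : 4 * (π * log 2) / (S.card : ℝ) - S.card * (2 * π * log 2 / (S.card : ℝ) ^ 2) =
      2 * π * (log 2 / S.card) := by
    field_simp
    ring
  rw [h3] at h2
  exact le_of_mul_le_mul_left h2 (by positivity)

/-- the distance of two points of the circle -/
theorem norm_ei_sub (t θ : ℝ) : ‖ei t - ei θ‖ = |2 * sin ((t - θ) / 2)| := by
  rw [ei_half t θ]
  set s := Real.sin ((t - θ) / 2)
  set c := Real.cos ((t - θ) / 2)
  have h2 : s ^ 2 + c ^ 2 = 1 := Real.sin_sq_add_cos_sq _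
  have h2' : (s : ℂ) ^ 2 + (c : ℂ) ^ 2 = 1 := by exact_mod_cast h2
  have h3 : ei θ * ((c : ℂ) + (s : ℂ) * Complex.I) ^ 2 - ei θ =
      ei θ * (((2 * s : ℝ) : ℂ) * (Complex.I * ((c : ℂ) + (s : ℂ) * Complex.I))) := by
    push_cast
    linear_combination (ei θ) * h2' + (-ei θ * s ^ 2) * Complex.I_sq
  have h4 : ‖((c : ℂ) + (s : ℂ) * Complex.I)‖ = 1 := by
    rw [Complex.norm_def, Complex.normSq_add_mul_I, Real.sqrt_eq_one]
    linarith
  rw [h3, norm_mul, norm_mul, norm_mul, h4, norm_ei, Complex.norm_real, Complex.norm_I,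
    Real.norm_eq_abs]
  ring

theorem log_norm_ei_sub {t θ : ℝ} (h : sin ((t - θ) / 2) ≠ 0) :
    log ‖ei t - ei θ‖ = log 2 + log (sin ((t - θ) / 2)) := by
  rw [norm_ei_sub, Real.log_abs, log_mul two_ne_zero h]

theorem exists_angle (z : ℂ) (hz : ‖z‖ = 1) : ∃ θ : ℝ, θ ∈ Ico 0 (2 * π) ∧ ei θ = z := by
  have hpos : (0 : ℝ) < 2 * π := by positivity
  refine ⟨toIcoMod hpos 0 z.arg, ?_, ?_⟩
  · have := toIcoMod_mem_Ico hpos 0 z.arg
    rwa [zero_add] at this
  · have h1 : toIcoMod hpos 0 z.arg = z.arg - toIcoDiv hpos 0 z.arg * (2 * π) := by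
      rw [toIcoMod, zsmul_eq_mul]
    rw [h1, ei]
    push_cast
    have h2 : ((z.arg : ℂ) - (toIcoDiv hpos 0 z.arg : ℂ) * (2 * π)) * Complex.I =
        z.arg * Complex.I + ((-toIcoDiv hpos 0 z.arg : ℤ) : ℂ) * (2 * π * Complex.I) := by
      push_cast
      ring
    rw [h2, Complex.exp_add, Complex.exp_int_mul_two_pi_mul_I, mul_one]
    have h3 := Complex.norm_mul_exp_arg_mul_I z
    rwa [hz, Complex.ofReal_one, one_mul] at h3

end Pool.Agent.Q74.Circ
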